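import Pool.Agent.Y858.BU.Stm

set_option autoImplicit false

/-!
Task LOG (helper858): a continuous branch of the logarithm on the complement of a proper `C¹` ray
which starts at the origin.
-/

namespace Pool.Agent.Y288.BU.Log

open Set Filter Topology MeasureTheory Metric

/-- a function with zero derivative on `[a, b]` has equal values at the end points -/
theorem const_of_deriv {f : ℝ → ℂ} {a b : ℝ} (hab : a ≤ b)
    (h : ∀ t ∈ Icc a b, HasDerivAt f 0 t) : f b = f a := by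
  refine constant_of_has_deriv_right_zero (fun t ht => (h t ht).continuousAt.continuousWithinAt)
    (fun t ht => (h t ⟨ht.1, ht.2.le⟩).hasDerivWithinAt) b ⟨hab, le_rfl⟩

variable {κ κ' : ℝ → ℂ}

/-- the integrand -/
noncomputable def ig (κ κ' : ℝ → ℂ) (z : ℂ) (t : ℝ) : ℂ := κ' (max t 0) / (z - κ (max t 0))

/-- the integrand of the logarithm of `κ` -/
noncomputable def ig1 (κ κ' : ℝ → ℂ) (t : ℝ) : ℂ := κ' (max t 1) / κ (max t 1)

theorem cont_max (hd : ∀ t : ℝ, 0 ≤ t → HasDerivAt κ (κ' t) t) (a : ℝ) (ha : 0 ≤ a) :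
    Continuous (fun t : ℝ => κ (max t a)) := by
  rw [continuous_iff_continuousAt]
  intro t
  have h1 : ContinuousAt κ (max t a) := (hd _ (ha.trans (le_max_right _ _))).continuousAt
  exact ContinuousAt.comp (f := fun t : ℝ => max t a) h1 (by fun_prop)

theorem cont_max' (hc : ContinuousOn κ' (Ici 0)) (a : ℝ) (ha : 0 ≤ a) :
    Continuous (fun t : ℝ => κ' (max t a)) :=
  hc.comp_continuous (by fun_prop) (fun t => ha.trans (le_max_right _ _))

theorem ray_ne {z : ℂ} (hz : z ∉ κ '' Ici 0) (t : ℝ) (ht : 0 ≤ t) : z - κ t ≠ 0 := by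
  intro h
  exact hz ⟨t, ht, (sub_eq_zero.1 h).symm⟩

theorem cont_ig (hd : ∀ t : ℝ, 0 ≤ t → HasDerivAt κ (κ' t) t) (hc : ContinuousOn κ' (Ici 0)) :
    Continuous (fun p : (↥(κ '' Ici 0)ᶜ) × ℝ => ig κ κ' (p.1 : ℂ) p.2) := by
  unfold ig
  refine Continuous.div ?_ ?_ ?_
  · exact (cont_max' hc 0 le_rfl).comp continuous_snd
  · exact (continuous_subtype_val.comp continuous_fst).sub
      ((cont_max hd 0 le_rfl).comp continuous_snd)
  · intro p
    exact ray_ne p.1.2 _ (le_max_right _ _)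

theorem cont_ig' (hd : ∀ t : ℝ, 0 ≤ t → HasDerivAt κ (κ' t) t) (hc : ContinuousOn κ' (Ici 0))
    {z : ℂ} (hz : z ∉ κ '' Ici 0) : Continuous (ig κ κ' z) :=
  (cont_ig hd hc).comp (f := fun t : ℝ => ((⟨z, hz⟩ : ↥(κ '' Ici 0)ᶜ), t)) (by fun_prop)

theorem cont_ig1 (hd : ∀ t : ℝ, 0 ≤ t → HasDerivAt κ (κ' t) t) (hc : ContinuousOn κ' (Ici 0))
    (hn : ∀ t : ℝ, 0 < t → κ t ≠ 0) : Continuous (ig1 κ κ') := by
  unfold ig1
  refine Continuous.div (cont_max' hc 1 zero_le_one) (cont_max hd 1 zero_le_one) ?_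
  intro t
  exact hn _ (lt_of_lt_of_le one_pos (le_max_right _ _))

/-- the integral `J_T (z)` -/
noncomputable def J (κ κ' : ℝ → ℂ) (z : ℂ) (T : ℝ) : ℂ := ∫ t in (0 : ℝ)..T, ig κ κ' z t

/-- `λ (T)` -/
noncomputable def lam (κ κ' : ℝ → ℂ) (T : ℝ) : ℂ :=
  Complex.log (-κ 1) + ∫ t in (1 : ℝ)..T, ig1 κ κ' t

theorem J_deriv (hd : ∀ t : ℝ, 0 ≤ t → HasDerivAt κ (κ' t) t) (hc : ContinuousOn κ' (Ici 0))
    {z : ℂ} (hz : z ∉ κ '' Ici 0) {T : ℝ} (hT : 0 ≤ T) :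
    HasDerivAt (J κ κ' z) (κ' T / (z - κ T)) T := by
  have h := ((cont_ig' hd hc hz).integral_hasStrictDerivAt 0 T).hasDerivAt
  have h2 : ig κ κ' z T = κ' T / (z - κ T) := by
    unfold ig; rw [max_eq_left hT]
  rw [h2] at h
  exact h

theorem lam_deriv (hd : ∀ t : ℝ, 0 ≤ t → HasDerivAt κ (κ' t) t) (hc : ContinuousOn κ' (Ici 0))
    (hn : ∀ t : ℝ, 0 < t → κ t ≠ 0) {T : ℝ} (hT : 1 ≤ T) :
    HasDerivAt (lam κ κ') (κ' T / κ T) T := by
  have h := ((cont_ig1 hd hc hn).integral_hasStrictDerivAt 1 T).hasDerivAt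
  have h2 : ig1 κ κ' T = κ' T / κ T := by
    unfold ig1; rw [max_eq_left hT]
  rw [h2] at h
  exact h.const_add _

theorem exp_J (hd : ∀ t : ℝ, 0 ≤ t → HasDerivAt κ (κ' t) t) (hc : ContinuousOn κ' (Ici 0))
    (h0 : κ 0 = 0) {z : ℂ} (hz : z ∉ κ '' Ici 0) {T : ℝ} (hT : 0 ≤ T) :
    (z - κ T) * Complex.exp (J κ κ' z T) = z := by
  have key := const_of_deriv (f := fun t => (z - κ t) * Complex.exp (J κ κ' z t)) hT ?_
  · have e : (z - κ 0) * Complex.exp (J κ κ' z 0) = z := by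
      simp [J, h0]
    exact key.trans e
  · intro t ht
    have h1 : HasDerivAt (fun t => z - κ t) (-κ' t) t := (hd t ht.1).const_sub z
    have h2 := (J_deriv hd hc hz ht.1).cexp
    have h3 := h1.mul h2
    have hne := ray_ne hz t ht.1
    have e : -κ' t * Complex.exp (J κ κ' z t) +
        (z - κ t) * (Complex.exp (J κ κ' z t) * (κ' t / (z - κ t))) = 0 := by
      field_simp
      ring
    rw [e] at h3
    exact h3

theorem exp_lam (hd : ∀ t : ℝ, 0 ≤ t → HasDerivAt κ (κ' t) t) (hc : ContinuousOn κ' (Ici 0))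
    (hn : ∀ t : ℝ, 0 < t → κ t ≠ 0) {T : ℝ} (hT : 1 ≤ T) :
    Complex.exp (lam κ κ' T) = -κ T := by
  have key := const_of_deriv (f := fun t => κ t * Complex.exp (-lam κ κ' t)) hT ?_
  · have e : κ 1 * Complex.exp (-lam κ κ' 1) = -1 := by
      have h1 : κ 1 ≠ 0 := hn 1 one_pos
      simp only [lam, intervalIntegral.integral_same, add_zero, Complex.exp_neg]
      rw [Complex.exp_log (neg_ne_zero.2 h1)]
      field_simp
    have e2 := key.trans e
    simp only [Complex.exp_neg] at e2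
    have h3 := Complex.exp_ne_zero (lam κ κ' T)
    field_simp at e2
    rw [e2]; ring
  · intro t ht
    have ht0 : 0 ≤ t := zero_le_one.trans ht.1
    have hne := hn t (lt_of_lt_of_le one_pos ht.1)
    have h2 := ((lam_deriv hd hc hn ht.1).neg).cexp
    have h3 := (hd t ht0).mul h2
    have e : κ' t * Complex.exp (-lam κ κ' t) +
        κ t * (Complex.exp (-lam κ κ' t) * -(κ' t / κ t)) = 0 := by
      field_simp
      ring
    have h4 : HasDerivAt (fun t => κ t * Complex.exp (-lam κ κ' t))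
        (κ' t * Complex.exp (-lam κ κ' t) +
        κ t * (Complex.exp (-lam κ κ' t) * -(κ' t / κ t))) t := h3
    rw [e] at h4
    exact h4

/-- the branch `L_T` -/
noncomputable def LT (κ κ' : ℝ → ℂ) (T : ℝ) (z : ℂ) : ℂ :=
  J κ κ' z T + Complex.log (1 - z / κ T) + lam κ κ' T

theorem slit {z w : ℂ} (h : ‖z‖ < ‖w‖) : 1 - z / w ∈ Complex.slitPlane := by
  have hw : 0 < ‖w‖ := lt_of_le_of_lt (norm_nonneg _) h
  have h1 : ‖z / w‖ < 1 := by
    rw [norm_div]; exact (div_lt_one hw).2 h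
  left
  have h2 := Complex.abs_re_le_norm (z / w)
  have h3 := le_abs_self (z / w).re
  simp only [Complex.sub_re, Complex.one_re]
  linarith

theorem exp_LT (hd : ∀ t : ℝ, 0 ≤ t → HasDerivAt κ (κ' t) t) (hc : ContinuousOn κ' (Ici 0))
    (h0 : κ 0 = 0) (hn : ∀ t : ℝ, 0 < t → κ t ≠ 0) {z : ℂ} (hz : z ∉ κ '' Ici 0) {T : ℝ}
    (hT : 1 ≤ T) (hzT : ‖z‖ < ‖κ T‖) : Complex.exp (LT κ κ' T z) = z := by
  have hT0 : 0 ≤ T := zero_le_one.trans hT
  have hk := hn T (lt_of_lt_of_le one_pos hT)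
  have h1 := exp_J hd hc h0 hz hT0
  have h2 := exp_lam hd hc hn hT
  have h3 : Complex.exp (Complex.log (1 - z / κ T)) = 1 - z / κ T :=
    Complex.exp_log (Complex.slitPlane_ne_zero (slit hzT))
  unfold LT
  rw [Complex.exp_add, Complex.exp_add, h2, h3]
  have h4 : Complex.exp (J κ κ' z T) * (1 - z / κ T) * (-κ T)
      = (z - κ T) * Complex.exp (J κ κ' z T) := by
    field_simp
    ring
  rw [h4, h1]

theorem LT_const (hd : ∀ t : ℝ, 0 ≤ t → HasDerivAt κ (κ' t) t) (hc : ContinuousOn κ' (Ici 0))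
    (hn : ∀ t : ℝ, 0 < t → κ t ≠ 0) {z : ℂ} (hz : z ∉ κ '' Ici 0) {S T : ℝ}
    (hS : 1 ≤ S) (hST : S ≤ T) (hzT : ∀ t, S ≤ t → ‖z‖ < ‖κ t‖) :
    LT κ κ' T z = LT κ κ' S z := by
  refine const_of_deriv (f := fun t => LT κ κ' t z) hST ?_
  intro t ht
  have ht1 : 1 ≤ t := hS.trans ht.1
  have ht0 : 0 ≤ t := zero_le_one.trans ht1
  have hk := hn t (lt_of_lt_of_le one_pos ht1)
  have hne := ray_ne hz t ht0
  have a1 := J_deriv hd hc hz ht0
  have a2 := lam_deriv hd hc hn ht1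
  have a3 : HasDerivAt (fun t => 1 - z / κ t) (-(-(z * κ' t) / κ t ^ 2)) t := by
    have h := ((hasDerivAt_const t z).div (hd t ht0) hk).const_sub 1
    have e : -((0 * κ t - z * κ' t) / κ t ^ 2) = -(-(z * κ' t) / κ t ^ 2) := by
      rw [zero_mul, zero_sub]
    rw [e] at h
    exact h
  have a4 := HasDerivAt.clog_real (f := fun t : ℝ => 1 - z / κ t) a3 (slit (hzT t ht.1))
  have a5 := (a1.add a4).add a2
  have hne2 : 1 - z / κ t ≠ 0 := Complex.slitPlane_ne_zero (slit (hzT t ht.1))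
  have hne3 : κ t - z ≠ 0 := by
    intro h; apply hne; rw [← neg_sub, h, neg_zero]
  have e : κ' t / (z - κ t) + -(-(z * κ' t) / κ t ^ 2) / (1 - z / κ t) + κ' t / κ t = 0 := by
    have e1 : 1 - z / κ t = (κ t - z) / κ t := by field_simp
    rw [e1, ← neg_sub (κ t) z, div_neg]
    field_simp
    ring
  rw [e] at a5
  exact a5

theorem LT_contOn (hd : ∀ t : ℝ, 0 ≤ t → HasDerivAt κ (κ' t) t) (hc : ContinuousOn κ' (Ici 0))
    (T : ℝ) {z : ℂ} (hz : z ∉ κ '' Ici 0) (hzT : ‖z‖ < ‖κ T‖) :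
    ContinuousWithinAt (LT κ κ' T) (κ '' Ici 0)ᶜ z := by
  unfold LT
  refine ContinuousWithinAt.add (ContinuousWithinAt.add ?_ ?_) continuousWithinAt_const
  · have h1 : Continuous (fun x : ↥(κ '' Ici 0)ᶜ => ∫ t in (0 : ℝ)..T, ig κ κ' (x : ℂ) t) :=
      intervalIntegral.continuous_parametric_intervalIntegral_of_continuous' (cont_ig hd hc) 0 T
    have h2 : ContinuousOn (fun z : ℂ => J κ κ' z T) (κ '' Ici 0)ᶜ := by
      rw [continuousOn_iff_continuous_domRestrict]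
      exact h1
    exact h2 z hz
  · have h3 : ContinuousAt (fun z : ℂ => Complex.log (1 - z / κ T)) z := by
      refine ContinuousAt.clog ?_ (slit hzT)
      fun_prop
    exact h3.continuousWithinAt

theorem t : Pool.Agent.Y858.BU.S_log := by
  intro κ κ' hd hc h0 hn hp
  have hex : ∀ r : ℝ, ∃ S : ℝ, 1 ≤ S ∧ ∀ t, S ≤ t → r < ‖κ t‖ := by
    intro r
    obtain ⟨a, ha⟩ := (eventually_atTop.1 (hp.eventually_gt_atTop r))
    exact ⟨max a 1, le_max_right _ _, fun t ht => ha t ((le_max_left _ _).trans ht)⟩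
  choose S hS1 hS2 using hex
  have same : ∀ z : ℂ, z ∉ κ '' Ici 0 → ∀ A B : ℝ, 1 ≤ A → 1 ≤ B → (∀ t, A ≤ t → ‖z‖ < ‖κ t‖) →
      (∀ t, B ≤ t → ‖z‖ < ‖κ t‖) → LT κ κ' A z = LT κ κ' B z := by
    intro z hz A B hA hB h1 h2
    rcases le_total A B with h | h
    · exact (LT_const hd hc hn hz hA h h1).symm
    · exact LT_const hd hc hn hz hB h h2
  refine ⟨fun z => LT κ κ' (S ‖z‖) z, ?_, ?_⟩
  · intro z hz
    have hz' : z ∉ κ '' Ici 0 := hz
    have hlt : ∀ t, S (‖z‖ + 1) ≤ t → ‖z‖ + 1 < ‖κ t‖ := hS2 _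
    have hcw := LT_contOn hd hc (S (‖z‖ + 1)) hz'
      (lt_trans (lt_add_one _) (hlt _ le_rfl))
    have hev : (fun w => LT κ κ' (S ‖w‖) w) =ᶠ[𝓝[(κ '' Ici 0)ᶜ] z] LT κ κ' (S (‖z‖ + 1)) := by
      have h1 : ∀ᶠ w in 𝓝[(κ '' Ici 0)ᶜ] z, w ∈ (κ '' Ici 0)ᶜ := self_mem_nhdsWithin
      have h2 : ∀ᶠ w in 𝓝[(κ '' Ici 0)ᶜ] z, ‖w‖ < ‖z‖ + 1 := by
        have : ∀ᶠ w in 𝓝 z, ‖w‖ < ‖z‖ + 1 :=
          (continuous_norm.tendsto z).eventually (gt_mem_nhds (lt_add_one _))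
        exact this.filter_mono nhdsWithin_le_nhds
      filter_upwards [h1, h2] with w hw1 hw2
      exact same w hw1 _ _ (hS1 _) (hS1 _) (hS2 _) (fun t ht => hw2.trans (hlt t ht))
    exact hcw.congr_of_eventuallyEq hev (same z hz' _ _ (hS1 _) (hS1 _) (hS2 _)
      (fun t ht => (lt_add_one _).trans (hlt t ht)))
  · intro z hz
    exact exp_LT hd hc h0 hn hz (hS1 _) (hS2 _ _ le_rfl)

end Pool.Agent.Y288.BU.Log
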