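import Pool.Agent.Y858.BU.Stm

set_option autoImplicit false

/-!
Task RAY (helper858): Cauchy-Schwarz along the rays of an annulus.
-/

namespace Pool.Agent.Y288.BU.Ray

open Set Filter Topology MeasureTheory Metric
open scoped ENNReal

theorem lint_inv {ε R : ℝ} (hε : 0 < ε) (hR : ε < R) :
    ∫⁻ ρ in Ioo ε R, ENNReal.ofReal (1 / ρ) = ENNReal.ofReal (Real.log (R / ε)) := by
  have h0 : (0 : ℝ) ∉ uIcc ε R := by
    rw [uIcc_of_le hR.le]
    intro h
    exact absurd h.1 (not_le.2 hε)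
  have h1 : ∫ ρ in ε..R, 1 / ρ = Real.log (R / ε) := integral_one_div h0
  have hint : IntegrableOn (fun ρ : ℝ => 1 / ρ) (Ioc ε R) := by
    have : IntervalIntegrable (fun ρ : ℝ => 1 / ρ) volume ε R := by
      apply intervalIntegral.intervalIntegrable_one_div (fun x hx => ?_) continuousOn_id
      intro h
      rw [id] at h
      rw [h] at hx
      exact h0 hx
    exact (intervalIntegrable_iff_integrableOn_Ioc_of_le hR.le).1 this
  have h2 : ∫ ρ in Ioc ε R, 1 / ρ = Real.log (R / ε) := by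
    rw [← h1, intervalIntegral.integral_of_le hR.le]
  rw [← h2, ofReal_integral_eq_lintegral_ofReal hint]
  · exact setLIntegral_congr Ioo_ae_eq_Ioc
  · filter_upwards [ae_restrict_mem measurableSet_Ioc] with x hx
    have : 0 < x := hε.trans hx.1
    positivity

/-- the one dimensional inequality -/
theorem one_dim {F : ℝ → ℝ} {e : ℝ → ℝ≥0∞} {ε R A : ℝ} (hε : 0 < ε) (hR : ε < R) (hA : 0 ≤ A)
    (hc : ContinuousOn F (Ioi 0)) (Y : Set ℝ) (hY : Y.Finite)
    (hd : ∀ ρ : ℝ, 0 < ρ → ρ ∉ Y → ∃ d : ℝ, HasDerivAt F d ρ ∧ ENNReal.ofReal (d ^ 2) ≤ e ρ)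
    (hAF : A ≤ F R - F ε) :
    ENNReal.ofReal (A ^ 2) ≤
      ENNReal.ofReal (Real.log (R / ε)) * ∫⁻ ρ in Ioo ε R, ENNReal.ofReal ρ * e ρ := by
  have hlog : 0 < Real.log (R / ε) := Real.log_pos ((one_lt_div hε).2 hR)
  have hlog' : ENNReal.ofReal (Real.log (R / ε)) ≠ 0 := by
    rw [Ne, ENNReal.ofReal_eq_zero, not_le]; exact hlog
  by_cases htop : ∫⁻ ρ in Ioo ε R, ENNReal.ofReal ρ * e ρ = ∞
  · rw [htop, ENNReal.mul_top hlog']; exact le_top
  set I : ℝ≥0∞ := ∫⁻ ρ in Ioo ε R, ENNReal.ofReal |deriv F ρ| with hI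
  have hmeas : Measurable (deriv F) := measurable_deriv F
  -- Cauchy-Schwarz
  have hCS : I ^ 2 ≤ ENNReal.ofReal (Real.log (R / ε)) *
      ∫⁻ ρ in Ioo ε R, ENNReal.ofReal ρ * e ρ := by
    have hf : AEMeasurable (fun ρ : ℝ => ENNReal.ofReal (Real.sqrt (1 / ρ)))
        (volume.restrict (Ioo ε R)) := by
      apply Measurable.aemeasurable
      fun_prop
    have hg : AEMeasurable (fun ρ : ℝ => ENNReal.ofReal (Real.sqrt ρ * |deriv F ρ|))
        (volume.restrict (Ioo ε R)) := by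
      apply Measurable.aemeasurable
      fun_prop
    have h := ENNReal.lintegral_mul_le_Lp_mul_Lq (volume.restrict (Ioo ε R))
      Real.HolderConjugate.two_two hf hg
    have e1 : ∫⁻ ρ in Ioo ε R, ((fun ρ : ℝ => ENNReal.ofReal (Real.sqrt (1 / ρ))) *
        (fun ρ : ℝ => ENNReal.ofReal (Real.sqrt ρ * |deriv F ρ|))) ρ = I := by
      rw [hI]
      refine setLIntegral_congr_fun measurableSet_Ioo (fun ρ hρ => ?_)
      have hρ0 : 0 < ρ := hε.trans hρ.1
      simp only [Pi.mul_apply]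
      rw [← ENNReal.ofReal_mul (Real.sqrt_nonneg _), ← mul_assoc, ← Real.sqrt_mul (by positivity),
        one_div, inv_mul_cancel₀ hρ0.ne', Real.sqrt_one, one_mul]
    have e2 : ∫⁻ ρ in Ioo ε R, (ENNReal.ofReal (Real.sqrt (1 / ρ))) ^ (2 : ℝ) =
        ENNReal.ofReal (Real.log (R / ε)) := by
      rw [← lint_inv hε hR]
      refine setLIntegral_congr_fun measurableSet_Ioo (fun ρ hρ => ?_)
      have hρ0 : 0 < ρ := hε.trans hρ.1
      rw [show (2 : ℝ) = ((2 : ℕ) : ℝ) by norm_num, ENNReal.rpow_natCast,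
        ← ENNReal.ofReal_pow (Real.sqrt_nonneg _), Real.sq_sqrt (by positivity)]
    have e3 : ∫⁻ ρ in Ioo ε R, (ENNReal.ofReal (Real.sqrt ρ * |deriv F ρ|)) ^ (2 : ℝ) ≤
        ∫⁻ ρ in Ioo ε R, ENNReal.ofReal ρ * e ρ := by
      apply lintegral_mono_ae
      have hYn : ∀ᵐ ρ ∂(volume.restrict (Ioo ε R)), ρ ∉ Y :=
        ae_restrict_of_ae (hY.countable.ae_notMem volume)
      filter_upwards [hYn, ae_restrict_mem measurableSet_Ioo] with ρ hρY hρ
      have hρ0 : 0 < ρ := hε.trans hρ.1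
      obtain ⟨d, hd1, hd2⟩ := hd ρ hρ0 hρY
      rw [show (2 : ℝ) = ((2 : ℕ) : ℝ) by norm_num, ENNReal.rpow_natCast,
        ← ENNReal.ofReal_pow (by positivity), mul_pow, Real.sq_sqrt hρ0.le, sq_abs,
        ENNReal.ofReal_mul hρ0.le, hd1.deriv]
      gcongr
    rw [e1, e2] at h
    have h2 : I ^ 2 ≤ (ENNReal.ofReal (Real.log (R / ε)) ^ (1 / (2 : ℝ)) *
        (∫⁻ ρ in Ioo ε R, ENNReal.ofReal ρ * e ρ) ^ (1 / (2 : ℝ))) ^ 2 := by
      gcongr
      refine h.trans ?_
      gcongr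
    refine h2.trans (le_of_eq ?_)
    rw [mul_pow, ← ENNReal.rpow_natCast, ← ENNReal.rpow_mul, ← ENNReal.rpow_natCast,
      ← ENNReal.rpow_mul]
    norm_num
  have hIfin : I ≠ ∞ := by
    intro h
    rw [h] at hCS
    have h3 : (∞ : ℝ≥0∞) ^ 2 = ∞ := by simp
    rw [h3] at hCS
    exact (ENNReal.mul_ne_top ENNReal.ofReal_ne_top htop) (top_le_iff.1 hCS)
  have hint : IntegrableOn (deriv F) (Ioo ε R) := by
    refine ⟨hmeas.aestronglyMeasurable, ?_⟩
    rw [hasFiniteIntegral_iff_norm]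
    simp only [Real.norm_eq_abs]
    exact lt_of_le_of_ne le_top hIfin
  have hint2 : IntervalIntegrable (deriv F) volume ε R := by
    rw [intervalIntegrable_iff_integrableOn_Ioo_of_le hR.le]
    exact hint
  have hftc : ∫ ρ in ε..R, deriv F ρ = F R - F ε := by
    refine MeasureTheory.integral_eq_of_hasDerivAt_off_countable_of_le F (deriv F) hR.le hY.countable
      (hc.mono (fun x hx => hε.trans_le hx.1)) ?_ hint2
    intro x hx
    obtain ⟨d, hd1, _⟩ := hd x (hε.trans hx.1.1) hx.2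
    rw [hd1.deriv]
    exact hd1
  have hAI : ENNReal.ofReal A ≤ I := by
    have h1 : A ≤ ∫ ρ in Ioo ε R, |deriv F ρ| := by
      have h2 : ∫ ρ in ε..R, deriv F ρ ≤ ∫ ρ in Ioo ε R, |deriv F ρ| := by
        rw [intervalIntegral.integral_of_le hR.le, integral_Ioc_eq_integral_Ioo]
        exact integral_mono hint hint.abs (fun x => le_abs_self _)
      rw [hftc] at h2
      exact hAF.trans h2
    rw [hI, ← ofReal_integral_eq_lintegral_ofReal hint.abs
      (Eventually.of_forall fun x => abs_nonneg _)]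
    exact ENNReal.ofReal_le_ofReal h1
  calc ENNReal.ofReal (A ^ 2) = (ENNReal.ofReal A) ^ 2 := ENNReal.ofReal_pow hA 2
    _ ≤ I ^ 2 := by gcongr
    _ ≤ _ := hCS

theorem symm_eq (p : ℝ × ℝ) :
    Complex.polarCoord.symm p = Pool.Agent.Y858.BU.pol p.1 p.2 := by
  rw [Complex.polarCoord_symm_apply, Pool.Agent.Y858.BU.pol, Complex.exp_mul_I]
  simp

theorem norm_pol {r φ : ℝ} (hr : 0 < r) : ‖Pool.Agent.Y858.BU.pol r φ‖ = r := by
  rw [Pool.Agent.Y858.BU.pol, norm_mul, Complex.norm_exp_ofReal_mul_I, mul_one,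
    Complex.norm_real, Real.norm_eq_abs, abs_of_pos hr]

theorem meas_pol : Measurable (fun p : ℝ × ℝ => Pool.Agent.Y858.BU.pol p.1 p.2) := by
  unfold Pool.Agent.Y858.BU.pol
  fun_prop

theorem t : Pool.Agent.Y858.BU.S_ray := by
  intro f E X hE hX hf ε R A hε hR hA hAf
  have hS : MeasurableSet {z : ℂ | ε < ‖z‖ ∧ ‖z‖ < R} :=
    (measurableSet_lt measurable_const measurable_norm).inter
      (measurableSet_lt measurable_norm measurable_const)
  have hEi : Measurable ({z : ℂ | ε < ‖z‖ ∧ ‖z‖ < R}.indicator E) := hE.indicator hS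
  have hpolar : ∫⁻ z in {z : ℂ | ε < ‖z‖ ∧ ‖z‖ < R}, E z =
      ∫⁻ φ in Ioo (-Real.pi) Real.pi, ∫⁻ ρ in Ioo ε R,
        ENNReal.ofReal ρ * E (Pool.Agent.Y858.BU.pol ρ φ) := by
    rw [← lintegral_indicator hS, ← Complex.lintegral_comp_polarCoord_symm,
      polarCoord_target, Measure.volume_eq_prod, ← Measure.prod_restrict,
      lintegral_prod_symm]
    · refine lintegral_congr (fun φ => ?_)
      rw [← lintegral_indicator measurableSet_Ioi, ← lintegral_indicator measurableSet_Ioo]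
      refine lintegral_congr (fun ρ => ?_)
      by_cases h0 : 0 < ρ
      · rw [indicator_of_mem (show ρ ∈ Ioi 0 from h0)]
        by_cases h1 : ρ ∈ Ioo ε R
        · rw [indicator_of_mem h1, symm_eq, indicator_of_mem, smul_eq_mul]
          simp only [mem_ofPred_eq]
          rw [norm_pol h0]
          exact h1
        · rw [indicator_of_notMem h1, symm_eq, indicator_of_notMem, smul_zero]
          simp only [mem_ofPred_eq]
          rw [norm_pol h0]
          exact h1
      · rw [indicator_of_notMem (show ρ ∉ Ioi 0 from h0), indicator_of_notMem]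
        intro h
        exact h0 (hε.trans h.1)
    · apply Measurable.aemeasurable
      have : (fun p : ℝ × ℝ => {z : ℂ | ε < ‖z‖ ∧ ‖z‖ < R}.indicator E
          (Complex.polarCoord.symm p)) = fun p : ℝ × ℝ =>
          {z : ℂ | ε < ‖z‖ ∧ ‖z‖ < R}.indicator E (Pool.Agent.Y858.BU.pol p.1 p.2) := by
        funext p; rw [symm_eq]
      have h2 : Measurable (fun p : ℝ × ℝ => {z : ℂ | ε < ‖z‖ ∧ ‖z‖ < R}.indicator E
          (Complex.polarCoord.symm p)) := by
        rw [this]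
        exact hEi.comp meas_pol
      have h3 : Measurable (fun p : ℝ × ℝ => ENNReal.ofReal p.1) := by fun_prop
      exact h3.smul h2
  rw [hpolar, ← lintegral_const_mul']
  · have hXn : ∀ᵐ φ ∂(volume.restrict (Ioo (-Real.pi) Real.pi)), φ ∉ X :=
      ae_restrict_of_ae (hX.countable.ae_notMem volume)
    calc ENNReal.ofReal (2 * Real.pi * A ^ 2)
        = ∫⁻ _ in Ioo (-Real.pi) Real.pi, ENNReal.ofReal (A ^ 2) := by
          rw [setLIntegral_const, Real.volume_Ioo, ← ENNReal.ofReal_mul (by positivity)]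
          congr 1
          ring
      _ ≤ _ := by
          apply lintegral_mono_ae
          filter_upwards [hXn, ae_restrict_mem measurableSet_Ioo] with φ hφX hφ
          obtain ⟨h1, Y, hY, h2⟩ := hf φ hφ hφX
          exact one_dim hε hR hA h1 Y hY h2 (hAf φ hφ hφX)
  · exact ENNReal.ofReal_ne_top

end Pool.Agent.Y288.BU.Ray
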